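import Mathlib
import Pool.Agent.W751.RR.Stm

/-!
# Project RR, part POTA: the logarithmic potential of the uniform measure on a disc
-/

set_option autoImplicit false

open MeasureTheory Filter Topology Set Complex

namespace Pool.Agent.W125.RR.PotA

theorem aux_intOn_log (r : ℝ) :
    IntegrableOn (fun z : ℂ => Real.log ‖z‖) (Metric.ball 0 r) volume := by
  rw [integrableOn_fun_norm_addHaar (μ := (volume : Measure ℂ)) (f := Real.log) (r := r)]
  rw [Complex.finrank_real_complex]
  have : (fun y : ℝ => y ^ (2 - 1) • Real.log y) = fun y => y * Real.log y := by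
    funext y; simp
  rw [this]
  apply IntegrableOn.mono_set (t := Icc 0 r) _ Ioo_subset_Icc_self
  exact (Real.continuous_mul_log.continuousOn).integrableOn_Icc

theorem aux_locint_log_sub (a : ℂ) :
    LocallyIntegrable (fun z : ℂ => Real.log ‖z - a‖) volume := by
  intro x
  refine ⟨Metric.ball a (‖x - a‖ + 1), Metric.isOpen_ball.mem_nhds ?_, ?_⟩
  · rw [Metric.mem_ball, dist_eq_norm]; linarith
  · have h1 := aux_intOn_log (‖x - a‖ + 1)
    have h2 : MeasurePreserving (fun z : ℂ => z - a) volume volume :=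
      measurePreserving_sub_right volume a
    have h3 := (h2.integrableOn_comp_preimage
      (MeasurableEquiv.subRight a).measurableEmbedding (f := fun z : ℂ => Real.log ‖z‖)
      (s := Metric.ball 0 (‖x - a‖ + 1))).mpr h1
    have h4 : (fun z : ℂ => z - a) ⁻¹' (Metric.ball 0 (‖x - a‖ + 1)) =
        Metric.ball a (‖x - a‖ + 1) := by
      ext z; simp [dist_eq_norm]
    rw [h4] at h3
    exact h3

/-- averaging over rotations, equality form -/
theorem aux_radial (G : ℂ → ℝ) (hGm : Measurable G) (κ : ℂ → ℝ) (hκm : Measurable κ)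
    (hrad : ∀ z w : ℂ, ‖z‖ = ‖w‖ → κ z = κ w) (a : ℂ)
    (hint : Integrable (fun z => κ z * G (a + z)) volume) :
    ∫ z, κ z * G (a + z) = ∫ z, κ z * Real.circleAverage G a ‖z‖ := by
  set ν : Measure ℝ := volume.restrict (Ioc 0 (2 * Real.pi)) with hν
  have hpi := Real.pi_pos
  have hνfin : IsFiniteMeasure ν := by
    rw [hν]; infer_instance
  set Φ : ℝ × ℂ → ℝ := fun p => κ p.2 * G (a + cexp (p.1 * I) * p.2) with hΦ
  have hΦm : Measurable Φ := by
    apply Measurable.mul
    · exact hκm.comp measurable_snd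
    · apply hGm.comp
      fun_prop
  set H : ℂ → ℝ := fun z => κ z * G (a + z) with hH
  have hnorm : ∀ θ : ℝ, ‖cexp (θ * I)‖ = 1 := fun θ => Complex.norm_exp_ofReal_mul_I θ
  have hrot : ∀ θ : ℝ, MeasurePreserving (fun z : ℂ => cexp (θ * I) * z) volume volume := by
    intro θ
    have := (rotation (Circle.exp θ)).measurePreserving
    have h2 : (rotation (Circle.exp θ) : ℂ → ℂ) = fun z : ℂ => cexp (θ * I) * z := by
      funext z
      simp
    rw [h2] at this
    exact this
  have hemb : ∀ θ : ℝ, MeasurableEmbedding (fun z : ℂ => cexp (θ * I) * z) := by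
    intro θ
    have h2 : (rotation (Circle.exp θ) : ℂ → ℂ) = fun z : ℂ => cexp (θ * I) * z := by
      funext z
      simp
    rw [← h2]
    exact (rotation (Circle.exp θ)).toHomeomorph.measurableEmbedding
  have hΦH : ∀ (θ : ℝ) (z : ℂ), Φ (θ, z) = H (cexp (θ * I) * z) := by
    intro θ z
    simp only [hΦ, hH]
    rw [hrad z (cexp (θ * I) * z) (by rw [norm_mul, hnorm, one_mul])]
  have hΦz : ∀ θ : ℝ, Integrable (fun z => Φ (θ, z)) volume := by
    intro θ
    have : (fun z => Φ (θ, z)) = H ∘ (fun z : ℂ => cexp (θ * I) * z) := by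
      funext z; exact hΦH θ z
    rw [this]
    exact ((hrot θ).integrable_comp_emb (hemb θ)).mpr hint
  have hΦI : ∀ θ : ℝ, ∫ z, Φ (θ, z) = ∫ z, H z := by
    intro θ
    have : (fun z => Φ (θ, z)) = fun z => H (cexp (θ * I) * z) := by
      funext z; exact hΦH θ z
    rw [this]
    exact (hrot θ).integral_comp (hemb θ) H
  have hΦN : ∀ θ : ℝ, ∫ z, ‖Φ (θ, z)‖ = ∫ z, ‖H z‖ := by
    intro θ
    have : (fun z => ‖Φ (θ, z)‖) = fun z => (fun w => ‖H w‖) (cexp (θ * I) * z) := by
      funext z; rw [hΦH θ z]
    rw [this]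
    exact (hrot θ).integral_comp (hemb θ) (fun w => ‖H w‖)
  have hΦint : Integrable Φ (ν.prod volume) := by
    rw [integrable_prod_iff hΦm.aestronglyMeasurable]
    constructor
    · exact Filter.Eventually.of_forall hΦz
    · simp_rw [hΦN]
      exact integrable_const _
  have hswap : ∫ θ, ∫ z, Φ (θ, z) ∂volume ∂ν = ∫ z, ∫ θ, Φ (θ, z) ∂ν ∂volume :=
    integral_integral_swap (f := fun θ z => Φ (θ, z)) hΦint
  have hL : ∫ θ, ∫ z, Φ (θ, z) ∂volume ∂ν = 2 * Real.pi * ∫ z, H z := by
    simp_rw [hΦI]
    rw [integral_const, hν, measureReal_restrict_apply_univ,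
      Real.volume_real_Ioc_of_le (by positivity)]
    simp
  have hR : ∀ z : ℂ, ∫ θ, Φ (θ, z) ∂ν = 2 * Real.pi * (κ z * Real.circleAverage G a ‖z‖) := by
    intro z
    simp only [hΦ]
    rw [integral_const_mul]
    have h1 : ∫ θ, G (a + cexp (θ * I) * z) ∂ν = 2 * Real.pi * Real.circleAverage G a ‖z‖ := by
      rw [Real.circleAverage_eq_integral_add (Complex.arg z), smul_eq_mul, ← mul_assoc,
        mul_inv_cancel₀ (by positivity), one_mul,
        intervalIntegral.integral_of_le (by positivity)]
      apply integral_congr_ae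
      filter_upwards with θ
      congr 1
      simp only [circleMap]
      congr 1
      have := Complex.norm_mul_exp_arg_mul_I z
      calc cexp (θ * I) * z = cexp (θ * I) * (‖z‖ * cexp (arg z * I)) := by rw [this]
        _ = ‖z‖ * (cexp (θ * I) * cexp (arg z * I)) := by ring
        _ = _ := by rw [← Complex.exp_add]; congr 2; push_cast; ring
    rw [h1]; ring
  rw [hL] at hswap
  simp_rw [hR] at hswap
  rw [integral_const_mul] at hswap
  exact mul_left_cancel₀ (by positivity) hswap

/-- mean of the logarithm over a circle -/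
theorem circ (w : ℂ) (r : ℝ) (hr : 0 < r) :
    Real.circleAverage (fun z => Real.log ‖z - w‖) 0 r = Real.log (max ‖w‖ r) := by
  rw [circleAverage_log_norm_sub_const_eq_log_radius_add_posLog hr.ne', zero_sub, norm_neg]
  rw [Real.posLog_eq_log_max_one (by positivity), ← Real.log_mul hr.ne' (by positivity)]
  congr 1
  rw [mul_max_of_nonneg _ _ hr.le, ← mul_assoc, mul_inv_cancel₀ hr.ne', one_mul, mul_one,
    max_comm]

/-- antiderivative -/
theorem int_mul_log (a b : ℝ) (ha : 0 ≤ a) (hab : a ≤ b) :
    ∫ y in a..b, y * Real.log y =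
      (b ^ 2 / 2 * Real.log b - b ^ 2 / 4) - (a ^ 2 / 2 * Real.log a - a ^ 2 / 4) := by
  have hder : ∀ x ∈ Ioo a b,
      HasDerivAt (fun x => x / 2 * (x * Real.log x) - x ^ 2 / 4) (x * Real.log x) x := by
    intro x hx
    have hx0 : x ≠ 0 := (lt_of_le_of_lt ha hx.1).ne'
    have h5 := ((hasDerivAt_id x).div_const 2).mul
      ((hasDerivAt_id x).mul (Real.hasDerivAt_log hx0))
    have h6 := (hasDerivAt_pow 2 x).div_const 4
    have h7 := h5.sub h6
    refine h7.congr_deriv ?_
    simp only [id, one_mul, Pi.mul_apply]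
    have : x * x⁻¹ = 1 := mul_inv_cancel₀ hx0
    rw [this]
    norm_num
    ring
  have hcont : ContinuousOn (fun x => x / 2 * (x * Real.log x) - x ^ 2 / 4) (Icc a b) := by
    apply Continuous.continuousOn
    have := Real.continuous_mul_log
    fun_prop
  rw [intervalIntegral.integral_eq_sub_of_hasDerivAt_of_le hab hcont hder
    (Real.continuous_mul_log.intervalIntegrable _ _)]
  ring

/-- radial integral of a function of the norm over a disc -/
theorem int_radial (f : ℝ → ℝ) (r : ℝ) (hr : 0 < r) :
    ∫ z in Metric.closedBall (0:ℂ) r, f ‖z‖ = 2 * Real.pi * ∫ y in (0:ℝ)..r, y * f y := by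
  have h1 : ∫ z in Metric.closedBall (0:ℂ) r, f ‖z‖
      = ∫ z : ℂ, (Iic r).indicator f ‖z‖ := by
    rw [← integral_indicator Metric.isClosed_closedBall.measurableSet]
    apply integral_congr_ae
    filter_upwards with z
    simp [indicator]
  rw [h1, integral_fun_norm_addHaar volume ((Iic r).indicator f), Complex.finrank_real_complex]
  have h2 : (volume : Measure ℂ).real (Metric.ball 0 1) = Real.pi := by
    rw [Measure.real, Complex.volume_ball]
    simp
  rw [h2]
  have h3 : ∫ y in Ioi (0:ℝ), y ^ (2 - 1) • (Iic r).indicator f y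
      = ∫ y in (0:ℝ)..r, y * f y := by
    rw [intervalIntegral.integral_of_le hr.le, ← integral_indicator measurableSet_Ioi,
      ← integral_indicator measurableSet_Ioc]
    apply integral_congr_ae
    filter_upwards with y
    by_cases hy : 0 < y
    · by_cases hyr : y ≤ r
      · simp [indicator, hy, hyr]
      · simp [indicator, hy, hyr]
    · simp [indicator, hy]
  rw [h3]
  simp only [nsmul_eq_mul, smul_eq_mul]
  push_cast
  ring

theorem int_max (a r : ℝ) (ha : 0 ≤ a) (hr : 0 < r) :
    ∫ y in (0:ℝ)..r, y * Real.log (max a y) =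
      if a ≤ r then r ^ 2 / 2 * Real.log r - r ^ 2 / 4 + a ^ 2 / 4 else
        r ^ 2 / 2 * Real.log a := by
  have hI : ∀ b c : ℝ, IntervalIntegrable (fun y : ℝ => y * Real.log (max a y)) volume b c := by
    intro b c
    apply Continuous.intervalIntegrable
    rcases ha.eq_or_lt with h0 | h0
    · have : (fun y : ℝ => y * Real.log (max a y)) =
          fun y : ℝ => (max 0 y) * Real.log (max 0 y) := by
        funext y
        rw [← h0]
        rcases le_total y 0 with hy | hy
        · rw [max_eq_left hy]; simp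
        · rw [max_eq_right hy]
      rw [this]
      exact Real.continuous_mul_log.comp (continuous_const.max continuous_id)
    · apply continuous_id.mul
      apply Continuous.log (continuous_const.max continuous_id)
      intro y
      exact (lt_of_lt_of_le h0 (le_max_left _ _)).ne'
  have hlo : ∀ b : ℝ, 0 ≤ b → b ≤ a → ∫ y in (0:ℝ)..b, y * Real.log (max a y) =
      b ^ 2 / 2 * Real.log a := by
    intro b hb hba
    have : ∫ y in (0:ℝ)..b, y * Real.log (max a y) = ∫ y in (0:ℝ)..b, y * Real.log a := by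
      apply intervalIntegral.integral_congr
      intro y hy
      rw [uIcc_of_le hb] at hy
      have : max a y = a := max_eq_left (hy.2.trans hba)
      simp only [this]
    rw [this, intervalIntegral.integral_mul_const, integral_id]
    ring
  split_ifs with h
  · rw [← intervalIntegral.integral_add_adjacent_intervals (hI 0 a) (hI a r), hlo a ha le_rfl]
    have : ∫ y in a..r, y * Real.log (max a y) = ∫ y in a..r, y * Real.log y := by
      apply intervalIntegral.integral_congr
      intro y hy
      rw [uIcc_of_le h] at hy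
      have : max a y = y := max_eq_right hy.1
      simp only [this]
    rw [this, int_mul_log a r ha h]
    ring
  · push Not at h
    exact hlo r hr.le h.le

theorem intOn (ρ : ℝ) (w : ℂ) :
    IntegrableOn (fun z : ℂ => Real.log ‖z - w‖) (Metric.closedBall 0 ρ) volume :=
  (aux_locint_log_sub w).integrableOn_isCompact (isCompact_closedBall _ _)

theorem int_closedBall (ρ : ℝ) (hρ : 0 < ρ) (w : ℂ) :
    ∫ z in Metric.closedBall (0:ℂ) ρ, Real.log ‖z - w‖ =
      2 * Real.pi * ∫ y in (0:ℝ)..ρ, y * Real.log (max ‖w‖ y) := by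
  set B : Set ℂ := Metric.closedBall 0 ρ with hB
  have hBm : MeasurableSet B := Metric.isClosed_closedBall.measurableSet
  set κ : ℂ → ℝ := B.indicator (fun _ => (1:ℝ)) with hκ
  have hκm : Measurable κ := measurable_const.indicator hBm
  have hκmul : ∀ g : ℂ → ℝ, (fun z => κ z * g z) = B.indicator g := by
    intro g
    funext z
    simp only [hκ, indicator]
    split_ifs <;> simp
  have hGm : Measurable (fun z : ℂ => Real.log ‖z - w‖) := by
    apply Real.measurable_log.comp
    exact (measurable_id.sub_const w).norm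
  have hrad : ∀ z w : ℂ, ‖z‖ = ‖w‖ → κ z = κ w := by
    intro z w h
    simp only [hκ, indicator, hB, Metric.mem_closedBall, dist_zero_right, h]
  have hint : Integrable (fun z => κ z * (fun z : ℂ => Real.log ‖z - w‖) (0 + z)) volume := by
    rw [hκmul (fun z => (fun z : ℂ => Real.log ‖z - w‖) (0 + z)), integrable_indicator_iff hBm]
    simp only [zero_add]
    exact intOn ρ w
  have h1 := aux_radial (fun z : ℂ => Real.log ‖z - w‖) hGm κ hκm hrad 0 hint
  simp only [zero_add] at h1
  have h2 : ∫ z in B, Real.log ‖z - w‖ = ∫ z, κ z * Real.log ‖z - w‖ := by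
    rw [hκmul (fun z : ℂ => Real.log ‖z - w‖), integral_indicator hBm]
  rw [h2, h1, ← int_radial (fun y => Real.log (max ‖w‖ y)) ρ hρ, ← integral_indicator hBm,
    ← hκmul]
  apply integral_congr_ae
  have : volume ({0} : Set ℂ) = 0 := by simp
  filter_upwards [measure_eq_zero_iff_ae_notMem.mp this] with z hz
  have hz0 : 0 < ‖z‖ := norm_pos_iff.mpr hz
  rw [circ w ‖z‖ hz0]

theorem vol (ρ : ℝ) (hρ : 0 < ρ) :
    volume (Metric.closedBall (0 : ℂ) ρ) = ENNReal.ofReal (Real.pi * ρ ^ 2) := by
  rw [Complex.volume_closedBall]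
  rw [mul_comm Real.pi, ENNReal.ofReal_mul (by positivity), ENNReal.ofReal_pow hρ.le]
  congr 1
  rw [← NNReal.coe_real_pi, ENNReal.ofReal_coe_nnreal]

/-- POTA -/
theorem main : Pool.Agent.W751.RR.S_POTA := by
  intro ρ hρ w
  have hpi := Real.pi_pos
  have hI : IntegrableOn (fun z : ℂ => Real.log ‖w - z‖) (Metric.closedBall 0 ρ) volume := by
    have := intOn ρ w
    simp_rw [norm_sub_rev w]
    exact this
  have hv := vol ρ hρ
  have hfin : (volume (Metric.closedBall (0 : ℂ) ρ))⁻¹ ≠ ⊤ := by
    rw [hv, ENNReal.inv_ne_top]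
    exact (ENNReal.ofReal_pos.mpr (by positivity)).ne'
  refine ⟨Integrable.smul_measure hI hfin, ?_⟩
  rw [Pool.Agent.W751.RR.m1, integral_smul_measure]
  have hc : ((volume (Metric.closedBall (0 : ℂ) ρ))⁻¹).toReal = (Real.pi * ρ ^ 2)⁻¹ := by
    rw [hv, ENNReal.toReal_inv, ENNReal.toReal_ofReal (by positivity)]
  rw [hc]
  have h1 : ∫ z in Metric.closedBall (0:ℂ) ρ, Real.log ‖w - z‖ =
      ∫ z in Metric.closedBall (0:ℂ) ρ, Real.log ‖z - w‖ := by
    simp_rw [norm_sub_rev w]
  rw [h1, int_closedBall ρ hρ w, int_max ‖w‖ ρ (norm_nonneg w) hρ, Pool.Agent.W751.RR.U,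
    smul_eq_mul]
  split_ifs with h
  · field_simp
    ring
  · field_simp

end Pool.Agent.W125.RR.PotA
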